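import Mathlib

namespace Pool.Agent.H.MP_e23efd_co

open Finset

variable {ι : Type*} [DecidableEq ι]

/-- monomial set function -/
def u (T : Finset ι) : Finset ι → ℚ := fun I => if T ⊆ I then 1 else 0

/-- set functions of degree at most `d` -/
def D (ι : Type*) [DecidableEq ι] (d : ℕ) : Submodule ℚ (Finset ι → ℚ) :=
  Submodule.span ℚ {f | ∃ T : Finset ι, T.card ≤ d ∧ f = u T}

/-- Moebius coefficient -/
def Dl (J : Finset ι) : (Finset ι → ℚ) →ₗ[ℚ] ℚ where
  toFun f := ∑ I ∈ J.powerset, (-1) ^ (I.card + J.card) * f I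
  map_add' f g := by simp [mul_add, sum_add_distrib]
  map_smul' c f := by simp [mul_sum, mul_left_comm]

theorem u_mul (S T : Finset ι) : u S * u T = u (S ∪ T) := by
  funext I
  simp only [u, Pi.mul_apply, union_subset_iff]
  by_cases h1 : S ⊆ I <;> by_cases h2 : T ⊆ I <;> simp [h1, h2]

theorem Dl_u (J T : Finset ι) : Dl J (u T) = if T = J then 1 else 0 := by
  show ∑ I ∈ J.powerset, (-1) ^ (I.card + J.card) * u T I = _
  by_cases h : T ⊆ J
  · simp only [u, mul_ite, mul_one, mul_zero]
    rw [← sum_filter]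
    have : ∑ I ∈ J.powerset with T ⊆ I, (-1 : ℚ) ^ (I.card + J.card)
        = ∑ K ∈ (J \ T).powerset, (-1) ^ (T.card + J.card) * (-1) ^ K.card := by
      symm
      refine sum_bij (fun K _ => K ∪ T) ?_ ?_ ?_ ?_
      · intro K hK
        exact mem_filter.2 ⟨mem_powerset.2 (union_subset
          ((mem_powerset.1 hK).trans sdiff_subset) h), subset_union_right⟩
      · intro K hK K' hK' e
        have d1 : Disjoint K T := disjoint_of_subset_left (mem_powerset.1 hK) sdiff_disjoint
        have d2 : Disjoint K' T := disjoint_of_subset_left (mem_powerset.1 hK') sdiff_disjoint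
        rw [← union_sdiff_cancel_right d1, ← union_sdiff_cancel_right d2, e]
      · intro I hI
        obtain ⟨h1, h2⟩ := mem_filter.1 hI
        exact ⟨I \ T, mem_powerset.2 (sdiff_subset_sdiff (mem_powerset.1 h1) subset_rfl),
          sdiff_union_of_subset h2⟩
      · intro K hK
        have d1 : Disjoint K T := disjoint_of_subset_left (mem_powerset.1 hK) sdiff_disjoint
        rw [card_union_of_disjoint d1, ← pow_add]
        congr 1; ring
    rw [this, ← mul_sum]
    have h2 : ∑ K ∈ (J \ T).powerset, (-1 : ℚ) ^ K.card = if J \ T = ∅ then 1 else 0 := by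
      have := sum_powerset_neg_one_pow_card (x := J \ T)
      exact_mod_cast this
    rw [h2]
    by_cases e : T = J
    · subst e; simp [← two_mul]
    · rw [if_neg e, if_neg, mul_zero]
      intro h3
      exact e (Subset.antisymm h (sdiff_eq_empty_iff_subset.1 h3))
  · rw [if_neg (fun e : T = J => h e.subset)]
    refine sum_eq_zero fun I hI => ?_
    rw [u, if_neg (fun h' => h (h'.trans (mem_powerset.1 hI))), mul_zero]

theorem u_mem {T : Finset ι} {d : ℕ} (h : T.card ≤ d) : u T ∈ D ι d :=
  Submodule.subset_span ⟨T, h, rfl⟩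

theorem D_mono {d e : ℕ} (h : d ≤ e) : D ι d ≤ D ι e :=
  Submodule.span_mono fun _ ⟨T, h1, h2⟩ => ⟨T, h1.trans h, h2⟩

theorem D_mul {d e : ℕ} {f g : Finset ι → ℚ} (hf : f ∈ D ι d) (hg : g ∈ D ι e) :
    f * g ∈ D ι (d + e) := by
  induction hf using Submodule.span_induction with
  | mem f h =>
    obtain ⟨S, hS, rfl⟩ := h
    induction hg using Submodule.span_induction with
    | mem g h =>
      obtain ⟨T, hT, rfl⟩ := h
      rw [u_mul]
      exact u_mem ((card_union_le _ _).trans (by omega))
    | zero => simp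
    | add x y _ _ h1 h2 => rw [mul_add]; exact add_mem h1 h2
    | smul c x _ h => rw [mul_smul_comm]; exact Submodule.smul_mem _ _ h
  | zero => simp
  | add x y _ _ h1 h2 => rw [add_mul]; exact add_mem h1 h2
  | smul c x _ h => rw [smul_mul_assoc]; exact Submodule.smul_mem _ _ h

theorem Dl_zero {d : ℕ} {f : Finset ι → ℚ} (hf : f ∈ D ι d) {J : Finset ι} (h : d < J.card) :
    Dl J f = 0 := by
  induction hf using Submodule.span_induction with
  | mem f h' =>
    obtain ⟨S, hS, rfl⟩ := h'
    rw [Dl_u, if_neg]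
    rintro rfl
    omega
  | zero => simp
  | add x y _ _ h1 h2 => simp [h1, h2]
  | smul c x _ h => simp [h]

theorem Dl_top {d : ℕ} {f : Finset ι → ℚ} (hf : f ∈ D ι d) {J T : Finset ι}
    (h : J.card = d + T.card) : Dl J (u T * f) = if T ⊆ J then Dl (J \ T) f else 0 := by
  induction hf using Submodule.span_induction with
  | mem f h' =>
    obtain ⟨S, hS, rfl⟩ := h'
    rw [u_mul, Dl_u, Dl_u]
    by_cases h1 : T ⊆ J
    · rw [if_pos h1]
      congr 1
      apply propext
      constructor
      · intro e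
        symm
        refine eq_of_subset_of_card_le ?_ ?_
        · rw [← e]; intro x hx; simp only [mem_sdiff, mem_union] at hx; tauto
        · rw [card_sdiff_of_subset h1]; omega
      · intro e
        rw [e, union_sdiff_of_subset h1]
    · rw [if_neg h1, if_neg]
      intro e
      exact h1 (e ▸ subset_union_left)
  | zero => simp
  | add x y _ _ h1 h2 => rw [mul_add, map_add, h1, h2]; split_ifs <;> simp
  | smul c x _ h => rw [mul_smul_comm, map_smul, h]; split_ifs <;> simp

theorem const_mem (c : ℚ) (d : ℕ) : (fun _ : Finset ι => c) ∈ D ι d := by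
  have : (fun _ : Finset ι => c) = c • u ∅ := by funext I; simp [u]
  rw [this]
  exact Submodule.smul_mem _ _ (u_mem (by simp))

theorem choose_rec (X : Finset ι → ℕ) (n : ℕ) :
    (fun I => ((X I).choose (n + 1) : ℚ))
      = (1 / (n + 1 : ℚ)) • ((fun I => (X I : ℚ)) * (fun I => ((X I).choose n : ℚ))
        - (n : ℚ) • fun I => ((X I).choose n : ℚ)) := by
  funext I
  simp only [Pi.smul_apply, Pi.sub_apply, Pi.mul_apply, smul_eq_mul]
  have h := Nat.choose_succ_right_eq (X I) n
  by_cases h1 : n ≤ X I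
  · have : ((X I).choose (n + 1) : ℚ) * (n + 1) = (X I).choose n * (X I - n) := by
      exact_mod_cast h
    field_simp
    linarith
  · rw [Nat.choose_eq_zero_of_lt (by omega), Nat.choose_eq_zero_of_lt (by omega)]
    simp

theorem choose_mem {d : ℕ} {X : Finset ι → ℕ} (hX : (fun I => (X I : ℚ)) ∈ D ι d) (n : ℕ) :
    (fun I => ((X I).choose n : ℚ)) ∈ D ι (d * n) := by
  induction n with
  | zero => simpa using const_mem 1 0
  | succ n ih =>
    rw [choose_rec]
    refine Submodule.smul_mem _ _ (sub_mem ?_ (Submodule.smul_mem _ _ (D_mono ?_ ih)))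
    · exact D_mono (by ring_nf; omega) (D_mul hX ih)
    · ring_nf; omega

/-- elementary symmetric function of a subfamily -/
def es (a : ι → ℕ) (k : ℕ) (I : Finset ι) : ℕ := ∑ B ∈ I.powersetCard k, ∏ i ∈ B, a i

variable [Fintype ι]

theorem es_eq (a : ι → ℕ) (k : ℕ) : (fun I => (es a k I : ℚ))
    = ∑ B ∈ (univ : Finset ι).powersetCard k, (∏ i ∈ B, (a i : ℚ)) • u B := by
  funext I
  simp only [es, Finset.sum_apply, Pi.smul_apply, u, smul_eq_mul, mul_ite, mul_one, mul_zero]
  rw [← sum_filter]
  push_cast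
  refine sum_congr ?_ fun _ _ => rfl
  ext B
  simp [mem_powersetCard, and_comm]

theorem es_mem (a : ι → ℕ) (k : ℕ) : (fun I => (es a k I : ℚ)) ∈ D ι k := by
  rw [es_eq]
  exact sum_mem fun B hB => Submodule.smul_mem _ _ (u_mem (mem_powersetCard.1 hB).2.le)

theorem Dl_es (a : ι → ℕ) (k : ℕ) {d : ℕ} {f : Finset ι → ℚ} (hf : f ∈ D ι d) {c : ℚ}
    (hc : ∀ J : Finset ι, J.card = d → Dl J f = c * ∏ i ∈ J, (a i : ℚ)) {J : Finset ι}
    (hJ : J.card = d + k) :
    Dl J ((fun I => (es a k I : ℚ)) * f) = (d + k).choose k * c * ∏ i ∈ J, (a i : ℚ) := by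
  rw [es_eq, sum_mul, map_sum]
  have : ∀ B ∈ (univ : Finset ι).powersetCard k,
      Dl J (((∏ i ∈ B, (a i : ℚ)) • u B) * f) = if B ⊆ J then c * ∏ i ∈ J, (a i : ℚ) else 0 := by
    intro B hB
    have hB' := (mem_powersetCard.1 hB).2
    rw [smul_mul_assoc, map_smul, Dl_top hf (by omega)]
    split_ifs with h
    · rw [hc _ (by rw [card_sdiff_of_subset h]; omega), ← prod_sdiff h, smul_eq_mul]; ring
    · simp
  rw [sum_congr rfl this, ← sum_filter, sum_const, nsmul_eq_mul, mul_assoc]
  congr 2
  rw [← hJ, ← card_powersetCard]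
  congr 1
  ext B
  simp [mem_powersetCard, and_comm]

/-- number of partitions into blocks -/
def NN (k n : ℕ) : ℕ := ∏ j ∈ range n, ((k + 1) * j + k).choose k

theorem Dl_choose (a : ι → ℕ) (k : ℕ) {X : Finset ι → ℕ} {w : Finset ι → ℚ} (hw : w ∈ D ι k)
    (hX : (fun I => (X I : ℚ)) = (fun I => (es a (k + 1) I : ℚ)) + w) (n : ℕ) :
    ∀ J : Finset ι, J.card = (k + 1) * n →
      Dl J (fun I => ((X I).choose n : ℚ)) = NN k n * ∏ i ∈ J, (a i : ℚ) := by
  have hXm : (fun I => (X I : ℚ)) ∈ D ι (k + 1) :=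
    hX ▸ add_mem (es_mem a _) (D_mono (by omega) hw)
  induction n with
  | zero =>
    intro J hJ
    obtain rfl : J = ∅ := card_eq_zero.1 (by simpa using hJ)
    simp [NN, Dl]
  | succ n ih =>
    intro J hJ
    have hm := choose_mem hXm n
    rw [choose_rec, hX, map_smul, map_sub, map_smul, add_mul, map_add,
      Dl_zero hm (by rw [hJ]; nlinarith), Dl_zero (D_mul hw hm) (by rw [hJ]; nlinarith),
      Dl_es a (k + 1) hm ih (by rw [hJ]; ring), NN, NN, prod_range_succ]
    have h1 := Nat.add_one_mul_choose_eq ((k + 1) * n + k) k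
    have h2 : ((k + 1) * n + (k + 1)).choose (k + 1) = (n + 1) * ((k + 1) * n + k).choose k := by
      apply Nat.eq_of_mul_eq_mul_right (show 0 < k + 1 by omega)
      rw [← add_assoc, ← h1]; ring
    rw [h2]
    simp only [smul_eq_mul]
    push_cast
    field_simp
    ring

end Pool.Agent.H.MP_e23efd_co
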